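import Mathlib

/-!
# Automorphisms of the algebraic numbers, cyclotomic part (MP_007c2d_nt)
-/

set_option autoImplicit false

namespace Pool.Agent.Lib_helper41.ZPL

/-- An algebraic closure of `ℚ`. -/
abbrev Qb : Type := AlgebraicClosure ℚ

/-- The absolute Galois group of `ℚ`. -/
abbrev GG : Type := Qb ≃ₐ[ℚ] Qb

theorem galQb : IsGalois ℚ Qb :=
  @IsAlgClosure.isGalois ℚ (AlgebraicClosure ℚ) _ _ (AlgebraicClosure.instAlgebra ℚ)
    (@AlgebraicClosure.instIsAlgClosure ℚ _) _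

lemma exists_aut (n : ℕ) (hn : 0 < n) (Z : Qb) (hZ : IsPrimitiveRoot Z n) (a : ℕ)
    (ha : a.Coprime n) : ∃ σ : GG, σ Z = Z ^ a := by
  have h1 : IsConjRoot ℚ Z (Z ^ a) := by
    rw [IsConjRoot, ← Polynomial.cyclotomic_eq_minpoly_rat hZ hn,
      ← Polynomial.cyclotomic_eq_minpoly_rat (hZ.pow_of_coprime a ha) hn]
  have : Normal ℚ Qb := galQb.to_normal
  obtain ⟨σ, hσ⟩ := isConjRoot_iff_exists_algEquiv.1 h1.symm
  exact ⟨σ, hσ⟩

/-- the numbers `a` prime to `40 l` with given residues modulo `8`, `5`, `l` -/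
lemma exists_a (l : ℕ) (hl : l.Prime) (hl7 : 5 < l) (r t : ℕ) (hr : r.Coprime 8)
    (ht : t.Coprime 5) :
    ∃ a : ℕ, a.Coprime (40 * l) ∧ a ≡ r [MOD 8] ∧ a ≡ t [MOD 5] ∧ a ≡ 1 [MOD l] := by
  obtain ⟨u, hu1, hu2⟩ := Nat.chineseRemainder (show Nat.Coprime 8 5 by norm_num) r t
  have hl40 : Nat.Coprime (8 * 5) l := by
    rw [Nat.coprime_comm, hl.coprime_iff_not_dvd]
    intro h
    rw [show 8 * 5 = 2 ^ 3 * 5 by norm_num, hl.dvd_mul] at h
    rcases h with h | h
    · have := (Nat.prime_dvd_prime_iff_eq hl Nat.prime_two).mp (hl.dvd_of_dvd_pow h)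
      omega
    · have := (Nat.prime_dvd_prime_iff_eq hl Nat.prime_five).mp h
      omega
  obtain ⟨a, ha1, ha2⟩ := Nat.chineseRemainder hl40 u 1
  have h8 : a ≡ r [MOD 8] := (ha1.of_mul_right 5).trans hu1
  have h5 : a ≡ t [MOD 5] := (ha1.of_mul_left 8).trans hu2
  refine ⟨a, ?_, h8, h5, ha2⟩
  rw [show 40 * l = 8 * (5 * l) by ring]
  apply Nat.Coprime.mul_right
  · rw [Nat.coprime_iff_gcd_eq_one, h8.gcd_eq]
    exact hr
  apply Nat.Coprime.mul_right
  · rw [Nat.coprime_iff_gcd_eq_one, h5.gcd_eq]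
    exact ht
  · rw [Nat.coprime_iff_gcd_eq_one, ha2.gcd_eq, Nat.gcd_one_left]

/-- the automorphisms with prescribed action on `i`, `√5`, `√2` and the `l`-th roots of unity -/
lemma exists_three (l : ℕ) (hl : l.Prime) (hl7 : 5 < l) (i s5 s2 : Qb) (hi : i ^ 2 = -1)
    (hs5 : s5 ^ 2 = 5) (hs2 : s2 ^ 2 = 2) :
    ∃ ζ : Qb, IsPrimitiveRoot ζ l ∧
      (∃ σ : GG, σ i = i ∧ σ s5 = s5 ∧ σ ζ = ζ ∧ σ s2 = -s2) ∧
      (∃ σ : GG, σ i = -i ∧ σ s5 = s5 ∧ σ ζ = ζ) ∧
      (∃ σ : GG, σ i = i ∧ σ s5 = -s5 ∧ σ ζ = ζ) := by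
  have hlpos := hl.pos
  obtain ⟨Z, hZ⟩ : ∃ Z : Qb, IsPrimitiveRoot Z (40 * l) := by
    have : NeZero ((40 * l : ℕ) : Qb) := ⟨by
      have : (40 * l : ℕ) ≠ 0 := by positivity
      exact_mod_cast this⟩
    exact HasEnoughRootsOfUnity.exists_primitiveRoot Qb (40 * l)
  have hn : 0 < 40 * l := by positivity
  have hζ : IsPrimitiveRoot (Z ^ 40) l := hZ.pow hn rfl
  have he : IsPrimitiveRoot (Z ^ (5 * l)) 8 := hZ.pow hn (by ring)
  have hη : IsPrimitiveRoot (Z ^ (8 * l)) 5 := hZ.pow hn (by ring)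
  set ζ := Z ^ 40 with hζd
  set e := Z ^ (5 * l) with hed
  set η := Z ^ (8 * l) with hηd
  have he4 : e ^ 4 = -1 := by
    have h1 : (e ^ 4 - 1) * (e ^ 4 + 1) = 0 := by
      linear_combination he.pow_eq_one
    rcases mul_eq_zero.1 h1 with h | h
    · exact absurd (sub_eq_zero.1 h) (he.pow_ne_one_of_pos_of_lt (by norm_num) (by norm_num))
    · exact eq_neg_of_add_eq_zero_left h
  have hη4 : 1 + η + η ^ 2 + η ^ 3 + η ^ 4 = 0 := by
    have h1 : (η - 1) * (1 + η + η ^ 2 + η ^ 3 + η ^ 4) = 0 := by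
      linear_combination hη.pow_eq_one
    rcases mul_eq_zero.1 h1 with h | h
    · exact absurd (sub_eq_zero.1 h) (by simpa using hη.pow_ne_one_of_pos_of_lt one_ne_zero (by norm_num))
    · exact h
  have hη5 := hη.pow_eq_one
  -- i = ± e^2
  have hie : i = e ^ 2 ∨ i = -e ^ 2 := by
    apply sq_eq_sq_iff_eq_or_eq_neg.1
    rw [hi, ← he4]
    ring
  have h2e : s2 = e - e ^ 3 ∨ s2 = -(e - e ^ 3) := by
    apply sq_eq_sq_iff_eq_or_eq_neg.1
    rw [hs2]
    linear_combination (2 - e ^ 2) * he4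
  have h5e : s5 = 1 + 2 * (η + η ^ 4) ∨ s5 = -(1 + 2 * (η + η ^ 4)) := by
    apply sq_eq_sq_iff_eq_or_eq_neg.1
    rw [hs5]
    linear_combination (-4) * hη4 - (8 + 4 * η ^ 3) * hη5
  have key : ∀ r t : ℕ, r.Coprime 8 → t.Coprime 5 →
      ∃ σ : GG, σ e = e ^ r ∧ σ η = η ^ t ∧ σ ζ = ζ := by
    intro r t hr ht
    obtain ⟨a, ha, h8, h5, h1⟩ := exists_a l hl hl7 r t hr ht
    obtain ⟨σ, hσ⟩ := exists_aut (40 * l) hn Z hZ a ha
    refine ⟨σ, ?_, ?_, ?_⟩
    · rw [hed, map_pow, hσ, ← pow_mul, mul_comm, pow_mul, ← hed]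
      exact pow_eq_pow_of_modEq h8 he.pow_eq_one
    · rw [hηd, map_pow, hσ, ← pow_mul, mul_comm, pow_mul, ← hηd]
      exact pow_eq_pow_of_modEq h5 hη.pow_eq_one
    · rw [hζd, map_pow, hσ, ← pow_mul, mul_comm, pow_mul, ← hζd]
      have := pow_eq_pow_of_modEq h1 hζ.pow_eq_one
      rwa [pow_one] at this
  refine ⟨ζ, hζ, ?_, ?_, ?_⟩
  · obtain ⟨σ, h1, h2, h3⟩ := key 5 1 (by norm_num) (by norm_num)
    rw [pow_one] at h2
    have h1' : σ e = -e := by
      rw [h1]
      linear_combination e * he4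
    refine ⟨σ, ?_, ?_, h3, ?_⟩
    · rcases hie with h | h
      · rw [h, map_pow, h1']
        ring
      · rw [h, map_neg, map_pow, h1']
        ring
    · rcases h5e with h | h
      · rw [h]
        simp only [map_add, map_mul, map_pow, map_one, map_ofNat, h2]
      · rw [h]
        simp only [map_neg, map_add, map_mul, map_pow, map_one, map_ofNat, h2]
    · rcases h2e with h | h
      · rw [h]
        simp only [map_sub, map_pow, h1']
        ring
      · rw [h]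
        simp only [map_neg, map_sub, map_pow, h1']
        ring
  · obtain ⟨σ, h1, h2, h3⟩ := key 3 1 (by norm_num) (by norm_num)
    rw [pow_one] at h2
    refine ⟨σ, ?_, ?_, h3⟩
    · rcases hie with h | h
      · rw [h, map_pow, h1]
        linear_combination e ^ 2 * he4
      · rw [h, map_neg, map_pow, h1]
        linear_combination (-e ^ 2) * he4
    · rcases h5e with h | h
      · rw [h]
        simp only [map_add, map_mul, map_pow, map_one, map_ofNat, h2]
      · rw [h]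
        simp only [map_neg, map_add, map_mul, map_pow, map_one, map_ofNat, h2]
  · obtain ⟨σ, h1, h2, h3⟩ := key 1 2 (by norm_num) (by norm_num)
    rw [pow_one] at h1
    refine ⟨σ, ?_, ?_, h3⟩
    · rcases hie with h | h
      · rw [h, map_pow, h1]
      · rw [h, map_neg, map_pow, h1]
    · have h4 : (1 : Qb) + 2 * (η ^ 2 + (η ^ 2) ^ 4) = -(1 + 2 * (η + η ^ 4)) := by
        linear_combination 2 * hη4 + 2 * η ^ 3 * hη5
      rcases h5e with h | h
      · rw [h]
        simp only [map_add, map_mul, map_pow, map_one, map_ofNat, h2]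
        exact h4
      · rw [h]
        simp only [map_neg, map_add, map_mul, map_pow, map_one, map_ofNat, h2]
        rw [h4]

/-- There is an automorphism that fixes `i`, `√5`, the `l`-th roots of unity and `w`, and moves
`√2`. -/
theorem exists_sigma2 (l : ℕ) (hl : l.Prime) (hl7 : 5 < l) (i s5 s2 θ w ζ : Qb)
    (hi : i ^ 2 = -1) (hs5 : s5 ^ 2 = 5) (hs2 : s2 ^ 2 = 2) (hθ : θ ^ 2 = i * ((1 + s5) / 2))
    (hw : w ^ l = θ) (hζ : IsPrimitiveRoot ζ l)
    (σ5 : GG) (h5i : σ5 i = i) (h5s : σ5 s5 = s5) (h5ζ : σ5 ζ = ζ) (h52 : σ5 s2 = -s2)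
    (g : GG) (hgi : g i = -i) (hgs : g s5 = s5) (hgζ : g ζ = ζ)
    (s : GG) (hsi : s i = i) (hss : s s5 = -s5) (hsζ : s ζ = ζ) :
    ∃ σ : GG, σ i = i ∧ σ s5 = s5 ∧ σ ζ = ζ ∧ σ w = w ∧ σ s2 = -s2 := by
  by_contra hcon
  push Not at hcon
  have hs20 : s2 ≠ 0 := by
    rintro rfl
    rw [zero_pow two_ne_zero] at hs2
    exact two_ne_zero hs2.symm
  have hi0 : i ≠ 0 := by
    rintro rfl
    rw [zero_pow two_ne_zero] at hi
    exact one_ne_zero (neg_eq_zero.mp hi.symm)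
  have hφ0 : (1 + s5) / 2 ≠ 0 := by
    intro h
    have h1 : s5 = -1 := by
      have := (div_eq_zero_iff.1 h).resolve_right two_ne_zero
      linear_combination this
    rw [h1] at hs5
    norm_num at hs5
  have hθ0 : θ ≠ 0 := by
    rintro rfl
    rw [zero_pow two_ne_zero] at hθ
    exact mul_ne_zero hi0 hφ0 hθ.symm
  have hw0 : w ≠ 0 := by
    rintro rfl
    rw [zero_pow hl.ne_zero] at hw
    exact hθ0 hw.symm
  have hpm2 : ∀ σ : GG, σ s2 = s2 ∨ σ s2 = -s2 := by
    intro σ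
    apply sq_eq_sq_iff_eq_or_eq_neg.1
    rw [← map_pow, hs2, map_ofNat]
  have hneg2 : ∀ z : Qb, z ≠ 0 → -z ≠ z := by
    intro z hz h
    have : 2 * z = 0 := by linear_combination -h
    exact hz ((mul_eq_zero.1 this).resolve_left two_ne_zero)
  -- Step A
  have hA : ∀ σ : GG, σ i = i → σ s5 = s5 → σ ζ = ζ → σ θ = θ → σ s2 = s2 := by
    intro σ h1 h2 h3 h4
    rcases hpm2 σ with h | h
    · exact h
    exfalso
    have h5 : (σ w / w) ^ l = 1 := by
      rw [div_pow, ← map_pow, hw, h4, div_self hθ0]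
    have : NeZero l := ⟨hl.ne_zero⟩
    obtain ⟨k, _, hk⟩ := hζ.eq_pow_of_pow_eq_one h5
    have hσw : σ w = ζ ^ k * w := by
      rw [hk, div_mul_cancel₀ _ hw0]
    have hit : ∀ m : ℕ, (σ ^ m) i = i ∧ (σ ^ m) s5 = s5 ∧ (σ ^ m) ζ = ζ ∧
        (σ ^ m) w = ζ ^ (k * m) * w ∧ (σ ^ m) s2 = (-1) ^ m * s2 := by
      intro m
      induction m with
      | zero => simp
      | succ m ih =>
        obtain ⟨i1, i2, i3, i4, i5⟩ := ih
        rw [pow_succ']
        simp only [AlgEquiv.mul_apply, i1, i2, i3, i4, i5, map_mul, map_pow, h1, h2, h3, h, hσw,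
          map_neg, map_one, true_and]
        constructor
        · ring
        · ring
    obtain ⟨i1, i2, i3, i4, i5⟩ := hit l
    have hodd : Odd l := hl.odd_of_ne_two (by omega)
    rw [mul_comm k, pow_mul, hζ.pow_eq_one, one_pow, one_mul] at i4
    rw [hodd.neg_one_pow, neg_one_mul] at i5
    exact hcon _ i1 i2 i3 i4 i5
  have hpmθ : ∀ σ : GG, σ i = i → σ s5 = s5 → σ θ = θ ∨ σ θ = -θ := by
    intro σ h1 h2
    apply sq_eq_sq_iff_eq_or_eq_neg.1
    rw [← map_pow, hθ]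
    simp only [map_mul, map_div₀, map_add, map_one, map_ofNat, h1, h2]
  have h5θ : σ5 θ = -θ := by
    rcases hpmθ σ5 h5i h5s with h | h
    · exact absurd (hA σ5 h5i h5s h5ζ h) (by rw [h52]; exact hneg2 s2 hs20)
    · exact h
  -- Step B
  obtain ⟨c, hc⟩ : ∃ c : Qb, c = s2 * θ / (1 + i) := ⟨_, rfl⟩
  have h1i : 1 + i ≠ 0 := by
    intro h
    have : i = -1 := by linear_combination h
    rw [this] at hi
    norm_num at hi
  have hc2 : c ^ 2 = (1 + s5) / 2 := by
    rw [hc, div_pow, mul_pow, hs2, hθ, div_eq_iff (pow_ne_zero 2 h1i)]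
    linear_combination (-(1 + s5) / 2) * hi
  have hB : ∀ σ : GG, σ i = i → σ s5 = s5 → σ ζ = ζ → σ c = c := by
    intro σ h1 h2 h3
    have h4 : σ (s2 * θ) = s2 * θ := by
      rw [map_mul]
      rcases hpm2 σ with h | h
      · rcases hpmθ σ h1 h2 with h' | h'
        · rw [h, h']
        · exfalso
          have := hA (σ5 * σ) (by rw [AlgEquiv.mul_apply, h1, h5i])
            (by rw [AlgEquiv.mul_apply, h2, h5s]) (by rw [AlgEquiv.mul_apply, h3, h5ζ])
            (by rw [AlgEquiv.mul_apply, h', map_neg, h5θ, neg_neg])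
          rw [AlgEquiv.mul_apply, h, h52] at this
          exact hneg2 s2 hs20 this
      · rcases hpmθ σ h1 h2 with h' | h'
        · exact absurd (hA σ h1 h2 h3 h') (by rw [h]; exact hneg2 s2 hs20)
        · rw [h, h']
          ring
    rw [hc, map_div₀, h4, map_add, map_one, h1]
  -- Step C
  have hcomm : (s⁻¹ * g⁻¹ * s * g) c = c := by
    have inv1 : ∀ (τ : GG) (x y : Qb), τ x = y → τ⁻¹ y = x := by
      intro τ x y h
      rw [← h]
      exact τ.symm_apply_apply x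
    have gi' : g⁻¹ i = -i := by
      have := inv1 g _ _ hgi
      rw [map_neg] at this
      linear_combination (-1 : Qb) * this
    have ss' : s⁻¹ s5 = -s5 := by
      have := inv1 s _ _ hss
      rw [map_neg] at this
      linear_combination (-1 : Qb) * this
    apply hB
    · simp only [AlgEquiv.mul_apply, hgi, map_neg, hsi, gi', inv1 s _ _ hsi, neg_neg]
    · simp only [AlgEquiv.mul_apply, hgs, hss, map_neg, inv1 g _ _ hgs, ss', neg_neg]
    · simp only [AlgEquiv.mul_apply, hgζ, hsζ, inv1 g _ _ hgζ, inv1 s _ _ hsζ]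
  have hcomm' : s (g c) = g (s c) := by
    have h1 : (g * s) ((s⁻¹ * g⁻¹ * s * g) c) = (g * s) c := by rw [hcomm]
    rw [← AlgEquiv.mul_apply] at h1
    have h2 : g * s * (s⁻¹ * g⁻¹ * s * g) = s * g := by group
    rw [h2] at h1
    exact h1
  have hgc : g c = c ∨ g c = -c := by
    apply sq_eq_sq_iff_eq_or_eq_neg.1
    rw [← map_pow, hc2]
    simp only [map_div₀, map_add, map_one, map_ofNat, hgs]
  have hcs : (c * s c) ^ 2 = -1 := by
    rw [mul_pow, ← map_pow, hc2]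
    simp only [map_div₀, map_add, map_one, map_ofNat, hss]
    linear_combination (-1 / 4 : Qb) * hs5
  have hg1 : g (c * s c) = c * s c := by
    rw [map_mul, ← hcomm']
    rcases hgc with h | h
    · rw [h]
    · rw [h, map_neg]
      ring
  have hpi : c * s c = i ∨ c * s c = -i := by
    apply sq_eq_sq_iff_eq_or_eq_neg.1
    rw [hcs, hi]
  rcases hpi with h | h
  · rw [h, hgi] at hg1
    exact hneg2 i hi0 hg1
  · rw [h, map_neg, hgi, neg_neg] at hg1
    exact hneg2 i hi0 hg1.symm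

end Pool.Agent.Lib_helper41.ZPL
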