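import Pool.Agent.Lib_helper41.ZPL.Kum

/-!
# The Galois data (MP_007c2d_nt)
-/

set_option autoImplicit false

namespace Pool.Agent.Lib_helper41.ZPL

open IntermediateField NumberField

/-- The ratio of the two conjugates is not an algebraic integer. -/
lemma not_integral (a b : ℤ) (hdvd : ¬ (a ^ 2 + a * b - b ^ 2 ∣ 5 * a ^ 2))
    (hD : a ^ 2 + a * b - b ^ 2 ≠ 0) (s5 : Qb) (hs5 : s5 ^ 2 = 5) (s : GG) (hss : s s5 = -s5) :
    ¬ IsIntegral ℤ (((b : Qb) - a * ((1 + s5) / 2)) / (b - a * (1 - (1 + s5) / 2))) := by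
  intro hint
  obtain ⟨φ, hφ⟩ : ∃ φ : Qb, φ = (1 + s5) / 2 := ⟨_, rfl⟩
  have hφ2 : φ ^ 2 = φ + 1 := by
    rw [hφ]
    linear_combination (1 / 4 : Qb) * hs5
  have hsφ : s φ = 1 - φ := by
    rw [hφ]
    simp only [map_div₀, map_add, map_one, map_ofNat, hss]
    ring
  rw [← hφ] at hint
  have hN : ((b : Qb) - a * φ) * (b - a * (1 - φ)) = -((a ^ 2 + a * b - b ^ 2 : ℤ) : Qb) := by
    push_cast
    linear_combination (-(a : Qb) ^ 2) * hφ2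
  have hDQ : ((a ^ 2 + a * b - b ^ 2 : ℤ) : Qb) ≠ 0 := by exact_mod_cast hD
  have hN0 : ((b : Qb) - a * φ) * (b - a * (1 - φ)) ≠ 0 := by
    rw [hN]
    exact neg_ne_zero.2 hDQ
  have h1 := left_ne_zero_of_mul hN0
  have h2 := right_ne_zero_of_mul hN0
  have hint2 : IsIntegral ℤ (s (((b : Qb) - a * φ) / (b - a * (1 - φ)))) :=
    hint.map (s.toRingHom.toIntAlgHom)
  have h3 : s (((b : Qb) - a * φ) / (b - a * (1 - φ))) = (b - a * (1 - φ)) / ((b : Qb) - a * φ) := by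
    simp only [map_div₀, map_sub, map_mul, map_intCast, map_one, hsφ]
    congr 1
    ring
  rw [h3] at hint2
  have hsum := hint.add hint2
  have h4 : ((b : Qb) - a * φ) / (b - a * (1 - φ)) + (b - a * (1 - φ)) / ((b : Qb) - a * φ) =
      algebraMap ℚ Qb (-(3 * a ^ 2 - 2 * a * b + 2 * b ^ 2 : ℤ) / (a ^ 2 + a * b - b ^ 2 : ℤ)) := by
    rw [map_div₀, map_neg, map_intCast, map_intCast, div_add_div _ _ h2 h1,
      mul_comm (b - a * (1 - φ)) (b - a * φ), hN, div_eq_div_iff (neg_ne_zero.2 hDQ) hDQ]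
    push_cast
    linear_combination (((a : Qb) ^ 2 + a * b - b ^ 2) * (2 * a ^ 2)) * hφ2
  rw [h4] at hsum
  have h5 : IsIntegral ℤ (-((3 * a ^ 2 - 2 * a * b + 2 * b ^ 2 : ℤ) : ℚ) /
      ((a ^ 2 + a * b - b ^ 2 : ℤ) : ℚ)) :=
    (isIntegral_algebraMap_iff (algebraMap ℚ Qb).injective).1 hsum
  obtain ⟨m, hm⟩ := IsIntegrallyClosed.isIntegral_iff.1 h5
  apply hdvd
  refine ⟨2 - m, ?_⟩
  have hDq : ((a ^ 2 + a * b - b ^ 2 : ℤ) : ℚ) ≠ 0 := by exact_mod_cast hD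
  rw [eq_div_iff hDq] at hm
  have h6 : (m : ℚ) * ((a ^ 2 + a * b - b ^ 2 : ℤ) : ℚ) =
      -((3 * a ^ 2 - 2 * a * b + 2 * b ^ 2 : ℤ) : ℚ) := by
    rw [← hm]
    simp
  have h7 : m * (a ^ 2 + a * b - b ^ 2) = -(3 * a ^ 2 - 2 * a * b + 2 * b ^ 2) := by
    exact_mod_cast h6
  linear_combination h7

theorem exists_data (a b : ℤ) (hD : a ^ 2 + a * b - b ^ 2 ≠ 0)
    (hdvd : ¬ (a ^ 2 + a * b - b ^ 2 ∣ 5 * a ^ 2)) :
    ∃ (l : ℕ) (i s2 w ζ U ζ' φ : Qb) (σ : GG), l.Prime ∧ i ^ 2 = -1 ∧ φ ^ 2 = φ + 1 ∧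
      s2 ^ 2 = 2 ∧ ζ ^ l = 1 ∧ ζ ≠ 1 ∧ w ^ (2 * l) = i * φ ∧
      U ^ l = (b - a * φ) * (b - a * (1 - φ)) ^ (l - 1) ∧ ζ' ^ l = 1 ∧ ζ' ≠ 1 ∧
      σ i = i ∧ σ φ = φ ∧ σ s2 = -s2 ∧ σ ζ = ζ ∧ σ w = w ∧ σ U = ζ' * U := by
  obtain ⟨i, hi⟩ := IsAlgClosed.exists_pow_nat_eq (-1 : Qb) (n := 2) (by norm_num)
  obtain ⟨s5, hs5⟩ := IsAlgClosed.exists_pow_nat_eq (5 : Qb) (n := 2) (by norm_num)
  obtain ⟨s2, hs2⟩ := IsAlgClosed.exists_pow_nat_eq (2 : Qb) (n := 2) (by norm_num)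
  obtain ⟨θ, hθ⟩ := IsAlgClosed.exists_pow_nat_eq (i * ((1 + s5) / 2) : Qb) (n := 2) (by norm_num)
  obtain ⟨-, -, -, -, s, -, hss, -⟩ := exists_three 7 (by norm_num) (by norm_num) i s5 s2 hi hs5 hs2
  have hnint := not_integral a b hdvd hD s5 hs5 s hss
  obtain ⟨φ, hφ⟩ : ∃ φ : Qb, φ = (1 + s5) / 2 := ⟨_, rfl⟩
  have hφ2 : φ ^ 2 = φ + 1 := by
    rw [hφ]
    linear_combination (1 / 4 : Qb) * hs5
  have hN : ((b : Qb) - a * φ) * (b - a * (1 - φ)) = -((a ^ 2 + a * b - b ^ 2 : ℤ) : Qb) := by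
    push_cast
    linear_combination (-(a : Qb) ^ 2) * hφ2
  have hDQ : ((a ^ 2 + a * b - b ^ 2 : ℤ) : Qb) ≠ 0 := by exact_mod_cast hD
  have hN0 : ((b : Qb) - a * φ) * (b - a * (1 - φ)) ≠ 0 := by
    rw [hN]
    exact neg_ne_zero.2 hDQ
  have hγ0 := right_ne_zero_of_mul hN0
  have hθ4 : θ ^ 4 = -((1 + s5) / 2) ^ 2 := by
    have : θ ^ 4 = (θ ^ 2) ^ 2 := by ring
    rw [this, hθ, mul_pow, hi]
    ring
  have h5E : s5 ∈ adjoin ℚ ({i, s5, s2, θ} : Set Qb) := subset_adjoin _ _ (by simp)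
  have hφE : (1 + s5) / 2 ∈ adjoin ℚ ({i, s5, s2, θ} : Set Qb) :=
    div_mem (add_mem (one_mem _) h5E) (_root_.natCast_mem _ 2)
  obtain ⟨n0, hn0⟩ := exists_rho i s5 s2 θ
    (((b : Qb) - a * ((1 + s5) / 2)) / (b - a * (1 - (1 + s5) / 2))) hi hs5 hs2 hθ4
    (div_mem (sub_mem (intCast_mem _ b) (mul_mem (intCast_mem _ a) hφE))
      (sub_mem (intCast_mem _ b) (mul_mem (intCast_mem _ a) (sub_mem (one_mem _) hφE))))
    (fun h hh => by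
      simp only [map_div₀, map_sub, map_mul, map_intCast, map_add, map_one, map_ofNat, hh])
    hnint
  obtain ⟨l, hlge, hl⟩ := Nat.exists_infinite_primes (n0 + 6)
  obtain ⟨ζ, hζ, ⟨σ5, a1, a2, a3, a4⟩, ⟨g, b1, b2, b3⟩, ⟨s', c1, c2, c3⟩⟩ :=
    exists_three l hl (by omega) i s5 s2 hi hs5 hs2
  obtain ⟨w, hw⟩ := IsAlgClosed.exists_pow_nat_eq θ (n := l) hl.pos
  obtain ⟨Y, hY⟩ := IsAlgClosed.exists_pow_nat_eq
    (((b : Qb) - a * ((1 + s5) / 2)) / (b - a * (1 - (1 + s5) / 2))) (n := l) hl.pos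
  obtain ⟨τ, t1, t2, t3, t4, t5⟩ := exists_sigma2 l hl (by omega) i s5 s2 θ w ζ hi hs5 hs2 hθ hw hζ
    σ5 a1 a2 a3 a4 g b1 b2 b3 s' c1 c2 c3
  obtain ⟨ρ, r1, r2, r3, r4, r5, r6⟩ := hn0 l hl (by omega) w ζ Y hw hζ hY
  rw [← hφ] at hY
  have hY0 : Y ≠ 0 := by
    rintro rfl
    rw [zero_pow hl.ne_zero] at hY
    exact div_ne_zero (left_ne_zero_of_mul hN0) hγ0 hY.symm
  have hYl : ∀ h : GG, h s5 = s5 → (h Y / Y) ^ l = 1 := by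
    intro h hh
    have h1 : h (Y ^ l) = Y ^ l := by
      rw [hY, hφ]
      simp only [map_div₀, map_sub, map_mul, map_intCast, map_add, map_one, map_ofNat, hh]
    rw [div_pow, ← map_pow, h1, div_self (pow_ne_zero _ hY0)]
  obtain ⟨σ, e1, e2, e3, e4, e5, e6⟩ : ∃ σ : GG, σ i = i ∧ σ s5 = s5 ∧ σ s2 = -s2 ∧ σ ζ = ζ ∧
      σ w = w ∧ σ Y ≠ Y := by
    by_cases hτ : τ Y = Y
    · refine ⟨τ * ρ, ?_, ?_, ?_, ?_, ?_, ?_⟩
      · rw [AlgEquiv.mul_apply, r1, t1]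
      · rw [AlgEquiv.mul_apply, r2, t2]
      · rw [AlgEquiv.mul_apply, r3, t5]
      · rw [AlgEquiv.mul_apply, r4, t3]
      · rw [AlgEquiv.mul_apply, r5, t4]
      · have : NeZero l := ⟨hl.ne_zero⟩
        obtain ⟨c, _, hc⟩ := hζ.eq_pow_of_pow_eq_one (hYl ρ r2)
        have h1 : ρ Y = ζ ^ c * Y := by rw [hc, div_mul_cancel₀ _ hY0]
        rw [AlgEquiv.mul_apply, h1, map_mul, map_pow, t3, hτ, ← h1]
        exact r6
    · exact ⟨τ, t1, t2, t5, t3, t4, hτ⟩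
  have hζ1 : ζ ≠ 1 := by
    rintro rfl
    have := hζ.eq_orderOf
    rw [orderOf_one] at this
    exact hl.ne_one this
  refine ⟨l, i, s2, w, ζ, (b - a * (1 - φ)) * Y, σ Y / Y, φ, σ, hl, hi, hφ2, hs2, hζ.pow_eq_one,
    hζ1, ?_, ?_, hYl σ e2, ?_, e1, ?_, e3, e4, e5, ?_⟩
  · rw [mul_comm 2 l, pow_mul, hw, hθ, hφ]
  · rw [mul_pow, hY]
    have : l = (l - 1) + 1 := by have := hl.pos; omega
    rw [mul_div_assoc']
    rw [div_eq_iff hγ0]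
    conv_lhs => rw [this, pow_succ]
    ring
  · intro h
    rw [div_eq_one_iff_eq hY0] at h
    exact e6 h
  · rw [hφ]
    simp only [map_div₀, map_add, map_one, map_ofNat, e2]
  · have h1 : σ (b - a * (1 - φ)) = b - a * (1 - φ) := by
      rw [hφ]
      simp only [map_div₀, map_sub, map_mul, map_intCast, map_add, map_one, map_ofNat, e2]
    rw [map_mul, h1]
    field_simp

end Pool.Agent.Lib_helper41.ZPL
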