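import Mathlib

/-!
# Sequences of norm `± square` whose ratio is a unit have a zero term (MP_007c2d_nt)
-/

set_option autoImplicit false

namespace Pool.Agent.Lib_helper41.ZPL

/-- descent -/
lemma desc (g : ℤ) (hg : 0 < g) : ∀ (k : ℕ) (G : ℤ → ℤ), (∀ n, G (n + 2) = G (n + 1) + G n) →
    g ∣ G 0 → g ∣ G 1 → |G 0 ^ 2 + G 0 * G 1 - G 1 ^ 2| = g ^ 2 →
    (G 0).natAbs + (G 1).natAbs ≤ k → ∃ n, G n = 0 := by
  intro k
  induction k with
  | zero =>
    intro G _ _ _ _ hk
    exact ⟨0, by omega⟩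
  | succ k ih =>
    intro G hrec h0 h1 hD hk
    by_cases ha : G 0 = 0
    · exact ⟨0, ha⟩
    by_cases hb : G 1 = 0
    · exact ⟨1, hb⟩
    have hga : g ≤ |G 0| := Int.le_of_dvd (abs_pos.2 ha) ((dvd_abs _ _).2 h0)
    have hgb : g ≤ |G 1| := Int.le_of_dvd (abs_pos.2 hb) ((dvd_abs _ _).2 h1)
    have hga2 : g ^ 2 ≤ G 0 ^ 2 := by
      rw [← sq_abs (G 0)]
      exact pow_le_pow_left₀ hg.le hga 2
    have hgb2 : g ^ 2 ≤ G 1 ^ 2 := by
      rw [← sq_abs (G 1)]
      exact pow_le_pow_left₀ hg.le hgb 2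
    have hm1 : G 1 = G 0 + G (-1) := by
      have := hrec (-1)
      norm_num at this
      exact this
    have hp1 : G 2 = G 1 + G 0 := by
      have := hrec 0
      norm_num at this
      exact this
    rcases lt_or_gt_of_ne (mul_ne_zero ha hb) with hab | hab
    · -- opposite signs : shift forward
      have hle : |G 1| ≤ |G 0| := by
        by_contra hlt
        push Not at hlt
        have h2 : G 0 * G 1 = -(|G 0| * |G 1|) := by
          rw [← abs_mul, abs_of_neg hab]
          ring
        have h3 : |G 0 ^ 2 + G 0 * G 1 - G 1 ^ 2| ≥ -(G 0 ^ 2 + G 0 * G 1 - G 1 ^ 2) :=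
          neg_le_abs _
        rw [hD, h2, ← sq_abs (G 0), ← sq_abs (G 1)] at h3
        rw [← sq_abs (G 1)] at hgb2
        have h4 : 0 < |G 0| := abs_pos.2 ha
        nlinarith
      obtain ⟨n, hn⟩ := ih (fun n => G (n + 1)) (fun n => by
          have := hrec (n + 1)
          rw [show n + 1 + 2 = n + 2 + 1 by ring] at this
          exact this)
        (by simpa using h1) (by
          show g ∣ G (1 + 1)
          rw [show (1 : ℤ) + 1 = 2 by norm_num, hp1]
          exact dvd_add h1 h0) (by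
          show |G (0 + 1) ^ 2 + G (0 + 1) * G (1 + 1) - G (1 + 1) ^ 2| = g ^ 2
          rw [show (0 : ℤ) + 1 = 1 by norm_num, show (1 : ℤ) + 1 = 2 by norm_num, hp1, ← hD,
            ← abs_neg]
          congr 1
          ring) (by
          show (G (0 + 1)).natAbs + (G (1 + 1)).natAbs ≤ k
          rw [show (0 : ℤ) + 1 = 1 by norm_num, show (1 : ℤ) + 1 = 2 by norm_num, hp1]
          rcases lt_or_gt_of_ne ha with h5 | h5
          · have h6 : 0 < G 1 := by
              by_contra h7
              push Not at h7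
              nlinarith [mul_nonneg_of_nonpos_of_nonpos h5.le h7]
            rw [abs_of_pos h6, abs_of_neg h5] at hle
            omega
          · have h6 : G 1 < 0 := by
              by_contra h7
              push Not at h7
              nlinarith [mul_nonneg h5.le h7]
            rw [abs_of_neg h6, abs_of_pos h5] at hle
            omega)
      exact ⟨n + 1, hn⟩
    · -- same sign : shift backward
      have hle : |G 0| ≤ |G 1| := by
        by_contra hlt
        push Not at hlt
        have h2 : G 0 * G 1 = |G 0| * |G 1| := by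
          rw [← abs_mul, abs_of_pos hab]
        have h3 : |G 0 ^ 2 + G 0 * G 1 - G 1 ^ 2| ≥ (G 0 ^ 2 + G 0 * G 1 - G 1 ^ 2) :=
          le_abs_self _
        rw [hD, h2, ← sq_abs (G 0), ← sq_abs (G 1)] at h3
        rw [← sq_abs (G 0)] at hga2
        have h4 : 0 < |G 1| := abs_pos.2 hb
        nlinarith
      obtain ⟨n, hn⟩ := ih (fun n => G (n - 1)) (fun n => by
          have := hrec (n - 1)
          rw [show n - 1 + 2 = n + 2 - 1 by ring, show n - 1 + 1 = n + 1 - 1 by ring] at this
          exact this)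
        (by
          show g ∣ G (0 - 1)
          rw [show (0 : ℤ) - 1 = -1 by norm_num]
          have : G (-1) = G 1 - G 0 := by omega
          rw [this]
          exact dvd_sub h1 h0) (by
          show g ∣ G (1 - 1)
          rw [show (1 : ℤ) - 1 = 0 by norm_num]
          exact h0) (by
          show |G (0 - 1) ^ 2 + G (0 - 1) * G (1 - 1) - G (1 - 1) ^ 2| = g ^ 2
          rw [show (0 : ℤ) - 1 = -1 by norm_num, show (1 : ℤ) - 1 = 0 by norm_num, ← hD,
            ← abs_neg, hm1]
          congr 1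
          ring) (by
          show (G (0 - 1)).natAbs + (G (1 - 1)).natAbs ≤ k
          rw [show (0 : ℤ) - 1 = -1 by norm_num, show (1 : ℤ) - 1 = 0 by norm_num]
          rcases lt_or_gt_of_ne ha with h5 | h5
          · have h6 : G 1 < 0 := by
              by_contra h7
              push Not at h7
              nlinarith [mul_nonneg (neg_nonneg.2 h5.le) h7]
            rw [abs_of_neg h6, abs_of_neg h5] at hle
            omega
          · have h6 : 0 < G 1 := by
              by_contra h7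
              push Not at h7
              nlinarith [mul_nonneg h5.le (neg_nonneg.2 h7)]
            rw [abs_of_pos h6, abs_of_pos h5] at hle
            omega)
      exact ⟨n - 1, hn⟩

lemma five_not_sq (m g : ℤ) (hg : g ≠ 0) (h : m * m = g ^ 2 * 5) : False := by
  have h1 : Irrational (√((5 : ℕ) : ℝ)) := Nat.Prime.irrational_sqrt Nat.prime_five
  apply h1
  refine ⟨|(m : ℚ) / g|, ?_⟩
  have hg' : (g : ℝ) ≠ 0 := by exact_mod_cast hg
  have h2 : ((m : ℝ) / g) ^ 2 = 5 := by
    rw [div_pow, div_eq_iff (pow_ne_zero 2 hg')]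
    have : (m : ℝ) * m = g ^ 2 * 5 := by exact_mod_cast h
    linarith
  push_cast
  rw [← Real.sqrt_sq_eq_abs, h2]

/-- If the two-sided sequence has no zero term and the norm is `±` a square, then the norm does
not divide `5 a²`. -/
theorem not_dvd_of_no_zero (a b : ℤ) (G : ℤ → ℤ) (h0 : G 0 = a) (h1 : G 1 = b)
    (hrec : ∀ n, G (n + 2) = G (n + 1) + G n) (hne : ∀ n, G n ≠ 0)
    (hsq : IsSquare |a ^ 2 + a * b - b ^ 2|) : ¬ (a ^ 2 + a * b - b ^ 2 ∣ 5 * a ^ 2) := by
  intro hdvd
  have ha : a ≠ 0 := h0 ▸ hne 0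
  obtain ⟨g, hg⟩ : ∃ g : ℕ, g = Int.gcd a b := ⟨_, rfl⟩
  have hgpos : 0 < g := hg ▸ Int.gcd_pos_of_ne_zero_left b ha
  obtain ⟨a', b', hcop, ha', hb'⟩ := Int.exists_gcd_one (m := a) (n := b) (hg ▸ hgpos)
  rw [← hg] at ha' hb'
  have hgz : (g : ℤ) ≠ 0 := by exact_mod_cast hgpos.ne'
  obtain ⟨D', hD'⟩ : ∃ D' : ℤ, D' = a' ^ 2 + a' * b' - b' ^ 2 := ⟨_, rfl⟩
  have hD : a ^ 2 + a * b - b ^ 2 = g ^ 2 * D' := by
    rw [hD', ha', hb']
    ring
  have hc : IsCoprime a' b' := Int.isCoprime_iff_gcd_eq_one.2 hcop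
  have hcD : IsCoprime D' a' := by
    rw [hD', show a' ^ 2 + a' * b' - b' ^ 2 = -b' ^ 2 + a' * (a' + b') by ring]
    apply IsCoprime.add_mul_left_left
    exact (IsCoprime.neg_left (IsCoprime.pow_left hc.symm))
  have h5 : D' ∣ 5 := by
    have h2 : g ^ 2 * D' ∣ g ^ 2 * (5 * a' ^ 2) := by
      rw [← hD]
      have : (g : ℤ) ^ 2 * (5 * a' ^ 2) = 5 * a ^ 2 := by
        rw [ha']
        ring
      rw [this]
      exact hdvd
    have h3 : D' ∣ 5 * a' ^ 2 := (mul_dvd_mul_iff_left (pow_ne_zero 2 hgz)).1 h2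
    exact (IsCoprime.pow_right hcD).dvd_of_dvd_mul_right h3
  have h6 : D'.natAbs = 1 ∨ D'.natAbs = 5 := by
    have : D'.natAbs ∣ 5 := by
      have := Int.natAbs_dvd_natAbs.2 h5
      exact this
    exact (Nat.dvd_prime Nat.prime_five).1 this
  have habs : |a ^ 2 + a * b - b ^ 2| = g ^ 2 * D'.natAbs := by
    rw [hD, abs_mul, abs_of_nonneg (by positivity), Int.abs_eq_natAbs]
  rcases h6 with h6 | h6
  · rw [h6, Nat.cast_one, mul_one] at habs
    obtain ⟨n, hn⟩ := desc g (by exact_mod_cast hgpos) _ G hrec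
      (by rw [h0, ha']; exact Dvd.intro_left _ rfl) (by rw [h1, hb']; exact Dvd.intro_left _ rfl)
      (by rw [h0, h1]; exact habs) le_rfl
    exact hne n hn
  · rw [h6] at habs
    obtain ⟨m, hm⟩ := hsq
    rw [habs] at hm
    exact five_not_sq m g hgz (by rw [← hm]; norm_num)

end Pool.Agent.Lib_helper41.ZPL
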