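import Pool.Agent.Lib_helper41.ZPL.Main

/-!
# The pairs with a zero term are the multiples of Fibonacci pairs (MP_007c2d_nt)
-/

set_option autoImplicit false

namespace Pool.Agent.Lib_helper41.ZPL

open Pool.Agent.Lib_helper31.PL

/-- Two-sided sequences are determined by two consecutive terms. -/
lemma rec_unique (G H : ℤ → ℤ) (hG : ∀ n, G (n + 2) = G (n + 1) + G n)
    (hH : ∀ n, H (n + 2) = H (n + 1) + H n) (m : ℤ) (h0 : G m = H m)
    (h1 : G (m + 1) = H (m + 1)) (n : ℤ) : G n = H n := by
  have key : ∀ n, G n = H n ∧ G (n + 1) = H (n + 1) := by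
    intro n
    induction n using Int.inductionOn' with
    | b => exact m
    | zero => exact ⟨h0, h1⟩
    | succ k _ ih =>
      refine ⟨ih.2, ?_⟩
      rw [show k + 1 + 1 = k + 2 by ring, hG, hH, ih.1, ih.2]
    | pred k _ ih =>
      have h2 := hG (k - 1)
      have h3 := hH (k - 1)
      rw [show k - 1 + 2 = k + 1 by ring, show k - 1 + 1 = k by ring] at h2 h3
      rw [show k - 1 + 1 = k by ring]
      exact ⟨by linarith [ih.1, ih.2], ih.1⟩
  exact (key n).1

/-- Every pair that is not an integer multiple of a pair of consecutive (two-sided) Fibonacci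
numbers has infinitely many odd `0`-PL primes. -/
theorem infinite_of_not_fib (a b : ℤ)
    (h : ¬ ∃ c k : ℤ, a = c * Int.fib k ∧ b = c * Int.fib (k + 1)) :
    (PLprimes a b 0).Infinite := by
  have hrec : ∀ n : ℤ, a * Int.fib (n + 2 - 1) + b * Int.fib (n + 2) =
      (a * Int.fib (n + 1 - 1) + b * Int.fib (n + 1)) + (a * Int.fib (n - 1) + b * Int.fib n) := by
    intro n
    have h1 := Int.fib_add_two n
    have h2 := Int.fib_add_two (n - 1)
    rw [show n - 1 + 2 = n + 1 by ring, show n - 1 + 1 = n by ring] at h2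
    rw [show n + 2 - 1 = n + 1 by ring, show n + 1 - 1 = n by ring, h1, h2]
    ring
  refine infinite_of_no_zero a b (fun n => a * Int.fib (n - 1) + b * Int.fib n) (by simp) (by simp)
    hrec ?_
  intro m hm
  apply h
  obtain ⟨c, hc⟩ : ∃ c, c = a * Int.fib (m + 1 - 1) + b * Int.fib (m + 1) := ⟨_, rfl⟩
  have hH : ∀ n : ℤ, c * Int.fib (n + 2 - m) = c * Int.fib (n + 1 - m) + c * Int.fib (n - m) := by
    intro n
    have h1 := Int.fib_add_two (n - m)
    rw [show n + 2 - m = n - m + 2 by ring, show n + 1 - m = n - m + 1 by ring, h1]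
    ring
  have hu := rec_unique (fun n => a * Int.fib (n - 1) + b * Int.fib n)
    (fun n => c * Int.fib (n - m)) hrec hH m (by simpa using hm) (by
      show a * Int.fib (m + 1 - 1) + b * Int.fib (m + 1) = c * Int.fib (m + 1 - m)
      rw [show m + 1 - m = 1 by ring, Int.fib_one, mul_one, hc])
  refine ⟨c, -m, ?_, ?_⟩
  · have := hu 0
    simpa using this
  · have := hu 1
    rw [show -m + 1 = 1 - m by ring]
    simpa using this

end Pool.Agent.Lib_helper41.ZPL
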