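import Pool.Agent.Lib_helper41.ZPL.Cyc

/-!
# The Kummer part (MP_007c2d_nt)
-/

set_option autoImplicit false

namespace Pool.Agent.Lib_helper41.ZPL

open IntermediateField NumberField

/-- Kummer theory: if every element of `H` that fixes `w` fixes `Y`, then `Y w^j` is fixed by `H`
for some `j`. -/
lemma kummer_step (l : ℕ) (hl : l.Prime) (w ζ Y : Qb) (hζ : IsPrimitiveRoot ζ l)
    (hw0 : w ≠ 0) (hY0 : Y ≠ 0) (H : Subgroup GG) (hHζ : ∀ h ∈ H, h ζ = ζ)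
    (hHw : ∀ h ∈ H, h (w ^ l) = w ^ l) (hHY : ∀ h ∈ H, h (Y ^ l) = Y ^ l)
    (hfix : ∀ h ∈ H, h w = w → h Y = Y) : ∃ j : ℕ, ∀ h ∈ H, h (Y * w ^ j) = Y * w ^ j := by
  have : NeZero l := ⟨hl.ne_zero⟩
  by_cases hall : ∀ h ∈ H, h w = w
  · exact ⟨0, fun h hh => by rw [pow_zero, mul_one]; exact hfix h hh (hall h hh)⟩
  push Not at hall
  obtain ⟨h0, hh0, hne⟩ := hall
  obtain ⟨ζ', hζ'⟩ : ∃ ζ', ζ' = h0 w / w := ⟨_, rfl⟩
  have hw' : h0 w = ζ' * w := by rw [hζ', div_mul_cancel₀ _ hw0]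
  have hζ'l : ζ' ^ l = 1 := by
    rw [hζ', div_pow, ← map_pow, hHw h0 hh0, div_self (pow_ne_zero _ hw0)]
  have hζ'1 : ζ' ≠ 1 := by
    intro h
    rw [h, one_mul] at hw'
    exact hne hw'
  have hprim : IsPrimitiveRoot ζ' l := by
    have h1 := orderOf_dvd_of_pow_eq_one hζ'l
    rcases (Nat.dvd_prime hl).1 h1 with h | h
    · exact absurd (orderOf_eq_one_iff.1 h) hζ'1
    · rw [← h]
      exact IsPrimitiveRoot.orderOf ζ'
  have hHζ' : ∀ h ∈ H, h ζ' = ζ' := by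
    intro h hh
    obtain ⟨k, _, hk⟩ := hζ.eq_pow_of_pow_eq_one hζ'l
    rw [← hk, map_pow, hHζ h hh]
  have hact : ∀ Z : Qb, Z ≠ 0 → ∀ h ∈ H, h (Z ^ l) = Z ^ l → ∃ b : ℕ, h Z = ζ' ^ b * Z := by
    intro Z hZ h _ hl'
    have h1 : (h Z / Z) ^ l = 1 := by
      rw [div_pow, ← map_pow, hl', div_self (pow_ne_zero _ hZ)]
    obtain ⟨b, _, hb⟩ := hprim.eq_pow_of_pow_eq_one h1
    exact ⟨b, by rw [hb, div_mul_cancel₀ _ hZ]⟩
  obtain ⟨b, hb⟩ := hact Y hY0 h0 hh0 (hHY h0 hh0)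
  have hit : ∀ m : ℕ, (h0 ^ m) w = ζ' ^ m * w ∧ (h0 ^ m) Y = ζ' ^ (b * m) * Y := by
    intro m
    induction m with
    | zero => simp
    | succ m ih =>
      rw [pow_succ']
      simp only [AlgEquiv.mul_apply, ih.1, ih.2, map_mul, map_pow, hHζ' h0 hh0, hw', hb]
      constructor
      · ring
      · ring
  refine ⟨(l - 1) * b, fun h hh => ?_⟩
  obtain ⟨c, hc⟩ := hact w hw0 h hh (hHw h hh)
  have hk : ((h0 ^ c)⁻¹ * h) ∈ H := H.mul_mem (H.inv_mem (H.pow_mem hh0 c)) hh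
  have h1 : ((h0 ^ c)⁻¹ * h) w = w := by
    rw [AlgEquiv.mul_apply, hc, ← (hit c).1]
    exact (h0 ^ c).symm_apply_apply w
  have h2 := hfix _ hk h1
  have h3 : h Y = ζ' ^ (b * c) * Y := by
    have h4 : (h0 ^ c) (((h0 ^ c)⁻¹ * h) Y) = (h0 ^ c) Y := by rw [h2]
    rw [(hit c).2] at h4
    rw [← h4, ← AlgEquiv.mul_apply]
    congr 1
    group
  rw [map_mul, map_pow, h3, hc]
  have h5 : ζ' ^ (b * c) * (ζ' ^ c) ^ ((l - 1) * b) = 1 := by
    rw [← pow_mul, ← pow_add]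
    have : b * c + c * ((l - 1) * b) = l * (b * c) := by
      obtain ⟨m, rfl⟩ : ∃ m, l = m + 1 := ⟨l - 1, by have := hl.pos; omega⟩
      rw [Nat.add_sub_cancel]
      ring
    rw [this, pow_mul, hζ'l, one_pow]
  rw [mul_pow]
  linear_combination (Y * w ^ ((l - 1) * b)) * h5

/-- The norm and a valuation. -/
lemma norm_val (E : IntermediateField ℚ Qb) [NumberField E]
    (v : IsDedekindDomain.HeightOneSpectrum (𝓞 E)) (x θ : E) (hx : 1 < v.valuation E x)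
    (hθ : v.valuation E θ = 1) (l : ℕ) (hl : l.Prime)
    (hlog : WithZero.log (v.valuation E x) < l) (ζ z : Qb) (hζ : IsPrimitiveRoot ζ l)
    (hz : ∀ g : GG, (∀ e : E, g e = e) → g ζ = ζ → g z = z) (j : ℕ)
    (hzl : z ^ l = x * θ ^ j) : False := by
  have hgal : IsGalois ℚ Qb := galQb
  have hgalE : IsGalois E Qb := inferInstance
  have hint : IsIntegral E ζ := by
    refine IsIntegral.of_pow hl.pos ?_
    rw [hζ.pow_eq_one]
    exact isIntegral_one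
  have hfd : FiniteDimensional E E⟮ζ⟯ := adjoin.finiteDimensional hint
  have hmem : z ∈ E⟮ζ⟯ := by
    rw [← InfiniteGalois.fixedField_fixingSubgroup (E⟮ζ⟯)]
    rw [IntermediateField.mem_fixedField_iff]
    intro g hg
    rw [IntermediateField.mem_fixingSubgroup_iff] at hg
    have h1 := hz (AlgEquiv.restrictScalars ℚ g) (fun e => g.commutes e)
      (hg ζ (mem_adjoin_simple_self E ζ))
    exact h1
  obtain ⟨d, hd⟩ : ∃ d, d = Module.finrank E E⟮ζ⟯ := ⟨_, rfl⟩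
  have hdpos : 0 < d := hd ▸ Module.finrank_pos
  have hdlt : d < l := by
    rw [hd, IntermediateField.adjoin.finrank hint]
    have h1 : (Polynomial.cyclotomic l E).natDegree = l - 1 := by
      rw [Polynomial.natDegree_cyclotomic, Nat.totient_prime hl]
    have h2 : minpoly E ζ ∣ Polynomial.cyclotomic l E := by
      apply minpoly.dvd
      rw [Polynomial.aeval_def, Polynomial.eval₂_eq_eval_map, Polynomial.map_cyclotomic]
      have := hζ.isRoot_cyclotomic hl.pos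
      exact this
    have h3 := Polynomial.natDegree_le_of_dvd h2 (Polynomial.cyclotomic_ne_zero l E)
    have := hl.two_le
    omega
  obtain ⟨n, hn⟩ : ∃ n : E, n = Algebra.norm E (⟨z, hmem⟩ : E⟮ζ⟯) := ⟨_, rfl⟩
  have h1 : n ^ l = (x * θ ^ j) ^ d := by
    rw [hn, ← map_pow, hd, ← Algebra.norm_algebraMap]
    congr 1
    apply Subtype.ext
    exact hzl
  have hx0 : v.valuation E x ≠ 0 := (zero_lt_one.trans hx).ne'
  have h2 : (v.valuation E n) ^ l = (v.valuation E x) ^ d := by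
    rw [← map_pow, h1, map_pow, map_mul, map_pow, hθ, one_pow, mul_one]
  have h3 := congrArg WithZero.log h2
  rw [WithZero.log_pow, WithZero.log_pow, nsmul_eq_mul, nsmul_eq_mul] at h3
  have h4 : 0 < WithZero.log (v.valuation E x) := by
    have := (WithZero.log_lt_log one_ne_zero hx0).2 hx
    rwa [WithZero.log_one] at this
  have h5 : (l : ℤ) ∣ d * WithZero.log (v.valuation E x) := Dvd.intro _ h3
  rcases (Nat.prime_iff_prime_int.1 hl).dvd_or_dvd h5 with h | h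
  · rw [Int.natCast_dvd_natCast] at h
    have := Nat.le_of_dvd hdpos h
    omega
  · have := Int.le_of_dvd h4 h
    omega

/-- There is an automorphism that fixes `i`, `√5`, `√2`, the `l`-th roots of unity and `w`, and
moves `Y`. -/
theorem exists_rho (i s5 s2 θ x : Qb) (hi : i ^ 2 = -1) (hs5 : s5 ^ 2 = 5) (hs2 : s2 ^ 2 = 2)
    (hθ : θ ^ 4 = -((1 + s5) / 2) ^ 2) (hxE : x ∈ adjoin ℚ {i, s5, s2, θ})
    (hxfix : ∀ h : GG, h s5 = s5 → h x = x) (hx : ¬ IsIntegral ℤ x) :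
    ∃ n0 : ℕ, ∀ l : ℕ, l.Prime → n0 < l → ∀ w ζ Y : Qb, w ^ l = θ → IsPrimitiveRoot ζ l →
      Y ^ l = x → ∃ ρ : GG, ρ i = i ∧ ρ s5 = s5 ∧ ρ s2 = s2 ∧ ρ ζ = ζ ∧ ρ w = w ∧ ρ Y ≠ Y := by
  obtain ⟨φ, hφ⟩ : ∃ φ : Qb, φ = (1 + s5) / 2 := ⟨_, rfl⟩
  have hφ2 : φ ^ 2 = φ + 1 := by
    rw [hφ]
    linear_combination (1 / 4 : Qb) * hs5
  have ihalf : ∀ y : Qb, y ^ 2 = y + 1 → IsIntegral ℤ y := by
    intro y hy
    refine ⟨Polynomial.X ^ 2 - Polynomial.X - 1, ?_, ?_⟩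
    · monicity!
    · simp only [Polynomial.eval₂_sub, Polynomial.eval₂_pow, Polynomial.eval₂_X,
        Polynomial.eval₂_one]
      linear_combination hy
  have hφi : IsIntegral ℤ φ := ihalf φ hφ2
  have hψi : IsIntegral ℤ (1 - φ) := ihalf (1 - φ) (by linear_combination hφ2)
  rw [← hφ] at hθ
  have hθi : IsIntegral ℤ θ := by
    refine IsIntegral.of_pow (n := 4) (by norm_num) ?_
    rw [hθ]
    exact (hφi.pow 2).neg
  have hθ' : θ * (θ ^ 3 * (-(1 - φ) ^ 2)) = 1 := by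
    have : θ * (θ ^ 3 * (-(1 - φ) ^ 2)) = θ ^ 4 * (-(1 - φ) ^ 2) := by ring
    rw [this, hθ]
    linear_combination (φ ^ 2 - φ + 1) * hφ2
  have hθ0 : θ ≠ 0 := left_ne_zero_of_mul (by rw [hθ']; exact one_ne_zero)
  have hθinv : IsIntegral ℤ (θ ^ 3 * (-(1 - φ) ^ 2)) := (hθi.pow 3).mul (hψi.pow 2).neg
  have hii : IsIntegral ℚ i := by
    refine IsIntegral.of_pow (n := 2) (by norm_num) ?_
    rw [hi]
    exact isIntegral_one.neg
  have h5i : IsIntegral ℚ s5 := by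
    refine IsIntegral.of_pow (n := 2) (by norm_num) ?_
    rw [hs5]
    exact isIntegral_algebraMap (x := (5 : ℚ))
  have h2i : IsIntegral ℚ s2 := by
    refine IsIntegral.of_pow (n := 2) (by norm_num) ?_
    rw [hs2]
    exact isIntegral_algebraMap (x := (2 : ℚ))
  have hfd : FiniteDimensional ℚ (adjoin ℚ ({i, s5, s2, θ} : Set Qb)) := by
    apply finiteDimensional_adjoin
    intro y hy
    simp only [Set.mem_insert_iff, Set.mem_singleton_iff] at hy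
    rcases hy with rfl | rfl | rfl | rfl
    · exact hii
    · exact h5i
    · exact h2i
    · exact hθi.tower_top
  obtain ⟨E, hE⟩ : ∃ E : IntermediateField ℚ Qb, E = adjoin ℚ ({i, s5, s2, θ} : Set Qb) :=
    ⟨_, rfl⟩
  rw [← hE] at hxE hfd
  have hNF : NumberField E := { to_charZero := inferInstance, to_finiteDimensional := hfd }
  have hiE : i ∈ E := by rw [hE]; exact subset_adjoin _ _ (by simp)
  have h5E : s5 ∈ E := by rw [hE]; exact subset_adjoin _ _ (by simp)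
  have h2E : s2 ∈ E := by rw [hE]; exact subset_adjoin _ _ (by simp)
  have hθE : θ ∈ E := by rw [hE]; exact subset_adjoin _ _ (by simp)
  have hφE : φ ∈ E := by
    rw [hφ]
    exact E.div_mem (E.add_mem E.one_mem h5E) (E.natCast_mem 2)
  have intE : ∀ y : E, IsIntegral ℤ (y : Qb) → IsIntegral ℤ y := by
    intro y hy
    exact (isIntegral_algebraMap_iff (algebraMap E Qb).injective).1 hy
  obtain ⟨v, hv⟩ : ∃ v : IsDedekindDomain.HeightOneSpectrum (𝓞 E),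
      1 < v.valuation E (⟨x, hxE⟩ : E) := by
    by_contra hcon
    push Not at hcon
    have h1 := IsDedekindDomain.HeightOneSpectrum.mem_integers_of_valuation_le_one E
      (R := 𝓞 E) (⟨x, hxE⟩ : E) hcon
    obtain ⟨y, hy⟩ := h1
    apply hx
    have h2 : IsIntegral ℤ (algebraMap (𝓞 E) E y) := y.2
    rw [hy] at h2
    exact h2.algebraMap (B := Qb)
  have hval : ∀ y : E, IsIntegral ℤ (y : Qb) → v.valuation E y ≤ 1 := by
    intro y hy
    exact v.valuation_le_one (K := E) (⟨y, intE y hy⟩ : 𝓞 E)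
  have hvθ : v.valuation E (⟨θ, hθE⟩ : E) = 1 := by
    have h1 := hval ⟨θ, hθE⟩ hθi
    have hmem : θ ^ 3 * (-(1 - φ) ^ 2) ∈ E :=
      E.mul_mem (pow_mem hθE 3) (E.neg_mem (pow_mem (E.sub_mem E.one_mem hφE) 2))
    have h2 := hval ⟨_, hmem⟩ hθinv
    have h3 : (⟨θ, hθE⟩ : E) * ⟨_, hmem⟩ = 1 := Subtype.ext hθ'
    have h4 := congrArg (v.valuation E) h3
    rw [map_mul, map_one] at h4
    apply le_antisymm h1
    rw [← h4]
    calc _ ≤ v.valuation E (⟨θ, hθE⟩ : E) * 1 := by gcongr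
      _ = _ := mul_one _
  refine ⟨(WithZero.log (v.valuation E (⟨x, hxE⟩ : E))).toNat, ?_⟩
  intro l hl hlt w ζ Y hw hζ hY
  by_contra hcon
  push Not at hcon
  have hx0 : x ≠ 0 := by
    rintro rfl
    exact hx isIntegral_zero
  have hY0 : Y ≠ 0 := by
    rintro rfl
    rw [zero_pow hl.ne_zero] at hY
    exact hx0 hY.symm
  have hw0 : w ≠ 0 := by
    rintro rfl
    rw [zero_pow hl.ne_zero] at hw
    exact hθ0 hw.symm
  obtain ⟨H, hH⟩ : ∃ H : Subgroup GG, ∀ g : GG, g ∈ H ↔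
      g i = i ∧ g s5 = s5 ∧ g s2 = s2 ∧ g θ = θ ∧ g ζ = ζ := by
    refine ⟨MulAction.stabilizer GG i ⊓ (MulAction.stabilizer GG s5 ⊓ (MulAction.stabilizer GG s2 ⊓
      (MulAction.stabilizer GG θ ⊓ MulAction.stabilizer GG ζ))), fun g => ?_⟩
    simp only [Subgroup.mem_inf, MulAction.mem_stabilizer_iff, AlgEquiv.smul_def]
  obtain ⟨j, hj⟩ := kummer_step l hl w ζ Y hζ hw0 hY0 H (fun h hh => ((hH h).1 hh).2.2.2.2)
    (fun h hh => by rw [hw]; exact ((hH h).1 hh).2.2.2.1)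
    (fun h hh => by rw [hY]; exact hxfix h ((hH h).1 hh).2.1)
    (fun h hh h1 => by
      obtain ⟨a1, a2, a3, a4, a5⟩ := (hH h).1 hh
      exact hcon h a1 a2 a3 a5 h1)
  refine norm_val E v ⟨x, hxE⟩ ⟨θ, hθE⟩ hv hvθ l hl (by omega) ζ (Y * w ^ j) hζ ?_ j ?_
  · intro g hg hgζ
    apply hj
    rw [hH]
    exact ⟨hg ⟨i, hiE⟩, hg ⟨s5, h5E⟩, hg ⟨s2, h2E⟩, hg ⟨θ, hθE⟩, hgζ⟩
  · rw [mul_pow, ← pow_mul, mul_comm j, pow_mul, hw, hY]

end Pool.Agent.Lib_helper41.ZPL
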