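import Pool.Agent.Lib_helper31.PLNonsq

/-!
# The argument modulo `p` (MP_007c2d_nt)
-/

set_option autoImplicit false

namespace Pool.Agent.Lib_helper41.ZPL

open Pool.Agent.Lib_helper31.PL

/-- in a field of characteristic `p`, the solutions of `x^p = x` are the elements of the
prime field -/
lemma mem_prime_field (p : ℕ) [hp : Fact p.Prime] (R : Type) [Field R]
    [Algebra (ZMod p) R] (x : R) (hx : x ^ p = x) : ∃ c : ZMod p, algebraMap (ZMod p) R c = x := by
  classical
  have hR : CharP R p := charP_of_injective_algebraMap (algebraMap (ZMod p) R).injective p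
  have h1 : (Polynomial.X ^ p - Polynomial.X : Polynomial R).natDegree = p :=
    FiniteField.X_pow_card_sub_X_natDegree_eq R hp.out.one_lt
  have h0 : (Polynomial.X ^ p - Polynomial.X : Polynomial R) ≠ 0 :=
    FiniteField.X_pow_card_sub_X_ne_zero R hp.out.one_lt
  have h2 : (Finset.univ.image (algebraMap (ZMod p) R)).card = p := by
    rw [Finset.card_image_of_injective _ (algebraMap (ZMod p) R).injective, Finset.card_univ,
      ZMod.card]
  have hmem : ∀ y : R, y ^ p = y →
      y ∈ (Polynomial.X ^ p - Polynomial.X : Polynomial R).roots.toFinset := by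
    intro y hy
    rw [Multiset.mem_toFinset, Polynomial.mem_roots h0, Polynomial.IsRoot.def, Polynomial.eval_sub,
      Polynomial.eval_pow, Polynomial.eval_X, hy, sub_self]
  have hsub : Finset.univ.image (algebraMap (ZMod p) R) ⊆
      (Polynomial.X ^ p - Polynomial.X : Polynomial R).roots.toFinset := by
    intro y hy
    obtain ⟨c, _, rfl⟩ := Finset.mem_image.1 hy
    apply hmem
    rw [← map_pow, ZMod.pow_card]
  have hle : (Polynomial.X ^ p - Polynomial.X : Polynomial R).roots.toFinset.card ≤ p := by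
    have h3 := Multiset.toFinset_card_le (Polynomial.X ^ p - Polynomial.X : Polynomial R).roots
    have h4 := Polynomial.card_roots' (Polynomial.X ^ p - Polynomial.X : Polynomial R)
    omega
  have heq := Finset.eq_of_subset_of_card_le hsub (by rw [h2]; exact hle)
  have hx' := hmem x hx
  rw [← heq] at hx'
  obtain ⟨c, _, hc⟩ := Finset.mem_image.1 hx'
  exact ⟨c, hc⟩

/-- Binet's formula -/
lemma binet {R : Type} [CommRing R] (a b : ℤ) (φ : R) (hφ : φ ^ 2 = φ + 1) (n : ℕ) :
    (2 * φ - 1) * (F a b n : R) =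
      (b - a * (1 - φ)) * φ ^ n - (b - a * φ) * (1 - φ) ^ n := by
  have key : ∀ n, (2 * φ - 1) * (F a b n : R) =
        (b - a * (1 - φ)) * φ ^ n - (b - a * φ) * (1 - φ) ^ n ∧
      (2 * φ - 1) * (F a b (n + 1) : R) =
        (b - a * (1 - φ)) * φ ^ (n + 1) - (b - a * φ) * (1 - φ) ^ (n + 1) := by
    intro n
    induction n with
    | zero =>
      constructor
      · simp only [F, pow_zero]
        ring
      · simp only [F, zero_add, pow_one]
        ring
    | succ n ih =>
      refine ⟨ih.2, ?_⟩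
      rw [show n + 1 + 1 = n + 2 from rfl, F_add_two]
      push_cast
      rw [mul_add, ih.1, ih.2]
      linear_combination ((b - a * φ) * (1 - φ) ^ n - (b - a * (1 - φ)) * φ ^ n) * hφ
  exact (key n).1

/-- The argument modulo `p`. -/
theorem zeroPL_modp (a b : ℤ) (p : ℕ) [hp : Fact p.Prime] (hp2 : p ≠ 2) (hp5 : p ≠ 5)
    (R : Type) [Field R] [Algebra (ZMod p) R] (l : ℕ) (hl : l.Prime)
    (i s2 w ζ U ζ' φ : R) (hi : i ^ 2 = -1) (hφ : φ ^ 2 = φ + 1) (hs2 : s2 ^ 2 = 2)
    (hζ : ζ ^ l = 1) (hζ1 : ζ ≠ 1) (hw : w ^ (2 * l) = i * φ)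
    (hU : U ^ l = (b - a * φ) * (b - a * (1 - φ)) ^ (l - 1))
    (hip : i ^ p = i) (hφp : φ ^ p = φ) (hwp : w ^ p = w) (hζp : ζ ^ p = ζ)
    (hs2p : s2 ^ p = -s2) (hUp : U ^ p = ζ' * U) (hζ'1 : ζ' ≠ 1)
    (hN : ((a ^ 2 + a * b - b ^ 2 : ℤ) : R) ≠ 0) :
    (N a b p 1 : ℤ) - N a b p (-1) - N a b p 0 = 0 := by
  have hpp := hp.out
  have hR : CharP R p := charP_of_injective_algebraMap (algebraMap (ZMod p) R).injective p
  have h2R : (2 : R) ≠ 0 := by
    intro h
    have h' : ((2 : ℕ) : R) = 0 := by exact_mod_cast h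
    rw [CharP.cast_eq_zero_iff R p] at h'
    exact hp2 ((Nat.prime_dvd_prime_iff_eq hpp Nat.prime_two).mp h')
  have hi0 : i ≠ 0 := by
    rintro rfl
    rw [zero_pow two_ne_zero] at hi
    exact one_ne_zero (neg_eq_zero.mp hi.symm)
  have hφ0 : φ ≠ 0 := by
    rintro rfl
    rw [zero_pow two_ne_zero] at hφ
    simp at hφ
  have hζ0 : ζ ≠ 0 := by
    rintro rfl
    rw [zero_pow hl.ne_zero] at hζ
    exact zero_ne_one hζ
  have hw0 : w ≠ 0 := by
    rintro rfl
    rw [zero_pow (by have := hl.pos; omega)] at hw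
    exact mul_ne_zero hi0 hφ0 hw.symm
  have hp1 : 1 ≤ p := hpp.one_lt.le
  have cancel : ∀ x : R, x ≠ 0 → x ^ p = x → x ^ (p - 1) = 1 := by
    intro x hx h
    apply mul_left_cancel₀ hx
    rw [← pow_succ', Nat.sub_add_cancel hp1, h, mul_one]
  -- 4 divides p - 1
  have h4 : p % 4 = 1 := by
    rcases Nat.Prime.eq_two_or_odd hpp with h | h
    · exact absurd h hp2
    · by_contra hne
      have h3 : p % 4 = 3 := by omega
      have h5 : i ^ (p - 1) = -1 := by
        have : p - 1 = 2 * ((p - 1) / 2) := by omega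
        rw [this, pow_mul, hi]
        have hodd : Odd ((p - 1) / 2) := by
          rw [Nat.odd_iff]
          omega
        exact hodd.neg_one_pow
      rw [cancel i hi0 hip] at h5
      apply h2R
      linear_combination h5
  -- 2 is not a square
  have hns : ¬ IsSquare (2 : ZMod p) := by
    rintro ⟨c, hc⟩
    have h1 : s2 ^ 2 = (algebraMap (ZMod p) R c) ^ 2 := by
      rw [hs2, ← map_pow, sq, ← hc, map_ofNat]
    have h2 : s2 ^ p = s2 := by
      rcases sq_eq_sq_iff_eq_or_eq_neg.1 h1 with h | h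
      · rw [h, ← map_pow, ZMod.pow_card]
      · have hodd : Odd p := hpp.odd_of_ne_two hp2
        rw [h, hodd.neg_pow, ← map_pow, ZMod.pow_card]
    rw [hs2p] at h2
    have h3 : s2 = 0 := by
      have : 2 * s2 = 0 := by linear_combination -h2
      exact (mul_eq_zero.mp this).resolve_left h2R
    rw [h3, zero_pow two_ne_zero] at hs2
    exact h2R hs2.symm
  have h8 : p % 8 = 5 := by
    by_contra hne
    apply hns
    rw [ZMod.exists_sq_eq_two_iff hp2]
    omega
  -- the shift
  obtain ⟨h, hh⟩ : ∃ h, h = (p - 1) / 4 := ⟨_, rfl⟩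
  have hodd : Odd h := by
    rw [Nat.odd_iff]
    omega
  have hp4 : p - 1 = 4 * h := by omega
  set ψ : R := 1 - φ with hψ
  have hφψ : φ * ψ = -1 := by
    rw [hψ]
    linear_combination -hφ
  have hψ0 : ψ ≠ 0 := by
    intro h0
    rw [h0, mul_zero] at hφψ
    exact one_ne_zero (neg_eq_zero.mp hφψ.symm)
  have hφh : (φ ^ h) ^ 2 = -1 := by
    -- (i φ)^h = w^(2 l h) = (w^(2h))^l, (w^{2h})^2 = 1
    have h1 : (i * φ) ^ (2 * h) = 1 := by
      rw [← hw, ← pow_mul]
      have : 2 * l * (2 * h) = (p - 1) * l := by rw [hp4]; ring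
      rw [this, pow_mul, cancel w hw0 hwp, one_pow]
    rw [mul_pow] at h1
    have h2 : i ^ (2 * h) = -1 := by
      rw [pow_mul, hi, hodd.neg_one_pow]
    rw [h2, mul_comm 2 h, pow_mul] at h1
    linear_combination -h1
  have hψh : ψ ^ h = φ ^ h := by
    have h1 : φ ^ h * ψ ^ h = -1 := by
      rw [← mul_pow, hφψ, hodd.neg_one_pow]
    have h3 : φ ^ h ≠ 0 := pow_ne_zero _ hφ0
    apply mul_left_cancel₀ h3
    rw [h1, ← sq, hφh]
  have hs : (2 * φ - 1) ≠ 0 := by
    intro h0
    have h1 : (2 * φ - 1) ^ 2 = 5 := by linear_combination 4 * hφ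
    rw [h0, zero_pow two_ne_zero] at h1
    have h' : ((5 : ℕ) : R) = 0 := by exact_mod_cast h1.symm
    rw [CharP.cast_eq_zero_iff R p] at h'
    exact hp5 ((Nat.prime_dvd_prime_iff_eq hpp Nat.prime_five).mp h')
  obtain ⟨c, hc⟩ := mem_prime_field p R (φ ^ h) (by
    rw [← pow_mul, mul_comm, pow_mul, hφp])
  have hc2 : c ^ 2 = -1 := by
    apply (algebraMap (ZMod p) R).injective
    rw [map_pow, hc, hφh, map_neg, map_one]
  have hshift : ∀ n, (F a b (n + h) : ZMod p) = c * F a b n := by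
    intro n
    apply (algebraMap (ZMod p) R).injective
    rw [map_mul, map_intCast, map_intCast, hc]
    apply mul_left_cancel₀ hs
    have h1 := binet (R := R) a b φ hφ (n + h)
    have h2 := binet (R := R) a b φ hφ n
    rw [pow_add, pow_add, ← hψ, hψh] at h1
    rw [← hψ] at h2
    linear_combination h1 - (φ ^ h) * h2
  have hN' : ((b : R) - a * φ) * (b - a * (1 - φ)) ≠ 0 := by
    have h1 : ((b : R) - a * φ) * (b - a * (1 - φ)) = -(((a ^ 2 + a * b - b ^ 2 : ℤ) : R)) := by
      push_cast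
      linear_combination (-(a : R) ^ 2) * hφ
    rw [h1]
    exact neg_ne_zero.2 hN
  have hγ0 : (b : R) - a * (1 - φ) ≠ 0 := right_ne_zero_of_mul hN'
  have hU0 : U ≠ 0 := by
    rintro rfl
    rw [zero_pow hl.ne_zero] at hU
    exact mul_ne_zero (left_ne_zero_of_mul hN') (pow_ne_zero _ hγ0) hU.symm
  have hUp1 : U ^ (p - 1) = ζ' := by
    apply mul_left_cancel₀ hU0
    rw [← pow_succ', Nat.sub_add_cancel hp1, hUp, mul_comm]
  have hord : orderOf ζ = l := by
    have := orderOf_dvd_of_pow_eq_one hζ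
    rcases (Nat.dvd_prime hl).1 this with h | h
    · exact absurd (orderOf_eq_one_iff.1 h) hζ1
    · exact h
  obtain ⟨m, hm⟩ : l ∣ p - 1 := hord ▸ orderOf_dvd_of_pow_eq_one (cancel ζ hζ0 hζp)
  have hγp : ((b : R) - a * (1 - φ)) ^ p = b - a * (1 - φ) := by
    rw [sub_pow_char, mul_pow, sub_pow_char, one_pow, hφp]
    have h3 : ∀ z : ℤ, (z : R) ^ p = z := by
      intro z
      have : ((z : ZMod p)) ^ p = z := ZMod.pow_card _
      have := congrArg (algebraMap (ZMod p) R) this
      rwa [map_pow, map_intCast] at this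
    rw [h3, h3]
  have hno : ∀ n, (F a b n : ZMod p) ≠ 0 := by
    intro n hn
    have hn' : (F a b n : R) = 0 := by
      have := congrArg (algebraMap (ZMod p) R) hn
      rwa [map_intCast, map_zero] at this
    have h1 := binet (R := R) a b φ hφ n
    rw [hn', mul_zero] at h1
    -- γ̄ ψ^n = γ φ^n; multiply by (-φ)^n
    have h2 : (b - a * φ : R) = (b - a * (1 - φ)) * (w ^ (4 * n)) ^ l := by
      have h3 : (w ^ (4 * n)) ^ l = (-φ ^ 2) ^ n := by
        rw [← pow_mul, show 4 * n * l = 2 * l * (2 * n) by ring, pow_mul, hw, pow_mul, mul_pow, hi]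
        ring
      have h4 : ψ ^ n * (-φ) ^ n = 1 := by
        rw [← mul_pow, show ψ * (-φ) = -(φ * ψ) by ring, hφψ, neg_neg, one_pow]
      rw [h3, show (-φ ^ 2 : R) = φ * (-φ) by ring, mul_pow]
      linear_combination ((-φ) ^ n) * h1 - (b - a * φ) * h4
    have h5 : U ^ l = ((b - a * (1 - φ)) * w ^ (4 * n)) ^ l := by
      rw [hU, h2, mul_pow, mul_right_comm, ← pow_succ', Nat.sub_add_cancel hl.one_lt.le]
    have h6 : U ^ (p - 1) = 1 := by
      rw [hm, pow_mul, h5, ← pow_mul, ← hm, mul_pow, cancel _ hγ0 hγp, ← pow_mul, mul_comm (4 * n),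
        pow_mul, cancel w hw0 hwp, one_pow, mul_one]
    rw [hUp1] at h6
    exact hζ'1 h6
  have hcc : ((c.val : ℤ) : ZMod p) = c := by
    push_cast
    rw [ZMod.natCast_zmod_val]
  exact zeroPL_of_shift a b p h (c.val : ℤ) (leg_of_sq p h8 _ (by rw [hcc, hc2]))
    (fun n => by rw [hcc, hshift n]) hno

end Pool.Agent.Lib_helper41.ZPL
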