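import Pool.Agent.Lib_helper41.ZPL.Data
import Pool.Agent.Lib_helper41.ZPL.Desc
import Pool.Agent.Lib_helper41.ZPL.ModP
import Pool.Agent.Lib_helper31.PLPrimes
import Pool.Agent.Lib_helper54.DSF.CHX

/-!
# Infinitely many `0`-PL primes for every sequence without a zero term (MP_007c2d_nt)
-/

set_option autoImplicit false

namespace Pool.Agent.Lib_helper41.ZPL

open NumberField
open Pool.Agent.DS (GQ Qbar Induces chx)
open Pool.Agent.Lib_helper31.PL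

/-- Chebotarev: the automorphism `σ` is, on finitely many elements and up to conjugation, the
Frobenius element of a large prime. -/
lemma exists_frob (S : Set Qb) [Finite S] (σ : GQ) (P : Finset ℕ) :
    ∃ p : ℕ, p.Prime ∧ p ∉ P ∧ ∃ 𝔓 : Ideal (𝓞 Qbar), 𝔓.IsPrime ∧ (p : 𝓞 Qbar) ∈ 𝔓 ∧
      ∃ y : GQ, ∀ z : 𝓞 Qbar, (z : Qbar) ∈ S → y • (σ • z) - (y • z) ^ p ∈ 𝔓 := by
  have hgal : IsGalois ℚ Qb := galQb
  obtain ⟨L, hL⟩ : ∃ L : FiniteGaloisIntermediateField ℚ Qb,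
      L = FiniteGaloisIntermediateField.adjoin ℚ S := ⟨_, rfl⟩
  have hSL : S ⊆ L.toIntermediateField := by
    rw [hL]
    exact FiniteGaloisIntermediateField.subset_adjoin ℚ S
  have hfd : FiniteDimensional ℚ L.toIntermediateField := L.finiteDimensional
  have hgl : IsGalois ℚ L.toIntermediateField := L.isGalois
  have hopen : IsOpen ((AlgEquiv.restrictNormalHom (F := ℚ) (K₁ := Qb)
      L.toIntermediateField).ker : Set GQ) := by
    have hker : (AlgEquiv.restrictNormalHom (F := ℚ) (K₁ := Qb) L.toIntermediateField).ker =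
        L.toIntermediateField.fixingSubgroup := IntermediateField.restrictNormalHom_ker _
    rw [hker]
    exact L.toIntermediateField.fixingSubgroup_isOpen
  obtain ⟨p, hp, hpP, 𝔓, h𝔓, hp𝔓, σ', hσ', y, hy⟩ := chx
    (AlgEquiv.restrictNormalHom (F := ℚ) (K₁ := Qb) L.toIntermediateField) hopen σ P
  refine ⟨p, hp, hpP, 𝔓, h𝔓, hp𝔓, y, fun z hz => ?_⟩
  apply hσ'
  change y (σ (z : Qbar)) = σ' (y (z : Qbar))
  have hzL : (z : Qbar) ∈ L.toIntermediateField := hSL hz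
  obtain ⟨t, ht⟩ : ∃ t : L.toIntermediateField, (t : Qb) = y (z : Qbar) :=
    ⟨AlgEquiv.restrictNormalHom (F := ℚ) (K₁ := Qb) L.toIntermediateField y ⟨z, hzL⟩,
      AlgEquiv.restrictNormal_commutes y L.toIntermediateField ⟨z, hzL⟩⟩
  have h1 : σ' (t : Qb) = (y * σ * y⁻¹) (t : Qb) := by
    have h2 := congrArg (fun g : L.toIntermediateField ≃ₐ[ℚ] L.toIntermediateField =>
      ((g t : L.toIntermediateField) : Qb)) hy
    have h3 : ∀ g : GQ, ((AlgEquiv.restrictNormalHom (F := ℚ) (K₁ := Qb) L.toIntermediateField g t :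
        L.toIntermediateField) : Qb) = g (t : Qb) :=
      fun g => AlgEquiv.restrictNormal_commutes g L.toIntermediateField t
    exact (h3 σ').symm.trans (h2.trans (h3 _))
  rw [ht] at h1
  rw [h1, AlgEquiv.mul_apply, AlgEquiv.mul_apply]
  congr 2
  exact (y.symm_apply_apply _).symm

theorem infinite_of_not_dvd (a b : ℤ) (hD : a ^ 2 + a * b - b ^ 2 ≠ 0)
    (hdvd : ¬ (a ^ 2 + a * b - b ^ 2 ∣ 5 * a ^ 2)) : (PLprimes a b 0).Infinite := by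
  rw [Set.infinite_iff_exists_gt]
  intro B
  obtain ⟨l, i, s2, w, ζ, U, ζ', φ, σ, hl, hi, hφ, hs2, hζ, hζ1, hw, hU, hζ', hζ'1, e1, e2, e3, e4,
    e5, e6⟩ := exists_data a b hD hdvd
  -- integrality
  have int_of : ∀ (x y : Qb) (n : ℕ), 0 < n → x ^ n = y → IsIntegral ℤ y → IsIntegral ℤ x := by
    intro x y n hn h hy
    exact IsIntegral.of_pow hn (h ▸ hy)
  have hφi : IsIntegral ℤ φ := by
    refine ⟨Polynomial.X ^ 2 - Polynomial.X - 1, ?_, ?_⟩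
    · monicity!
    · simp only [Polynomial.eval₂_sub, Polynomial.eval₂_pow, Polynomial.eval₂_X,
        Polynomial.eval₂_one]
      linear_combination hφ
  have hii : IsIntegral ℤ i := int_of i _ 2 (by norm_num) hi isIntegral_one.neg
  have h2i : IsIntegral ℤ s2 := int_of s2 _ 2 (by norm_num) hs2
    (isIntegral_algebraMap (R := ℤ) (A := Qb) (x := 2))
  have hζi : IsIntegral ℤ ζ := int_of ζ _ l hl.pos hζ isIntegral_one
  have hζ'i : IsIntegral ℤ ζ' := int_of ζ' _ l hl.pos hζ' isIntegral_one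
  have hwi : IsIntegral ℤ w := int_of w _ (2 * l) (by have := hl.pos; omega) hw (hii.mul hφi)
  have hzi : ∀ z : ℤ, IsIntegral ℤ (z : Qb) := fun z =>
    isIntegral_algebraMap (R := ℤ) (A := Qb) (x := z)
  have hUi : IsIntegral ℤ U := int_of U _ l hl.pos hU
    (((hzi b).sub ((hzi a).mul hφi)).mul
      (((hzi b).sub ((hzi a).mul (isIntegral_one.sub hφi))).pow _))
  obtain ⟨p, hp, hpP, 𝔓, h𝔓, hp𝔓, y, hy⟩ := exists_frob {i, s2, w, ζ, U, φ} σ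
    (Finset.range (B + 6 + l + (a ^ 2 + a * b - b ^ 2).natAbs))
  rw [Finset.mem_range, not_lt] at hpP
  have hpf : Fact p.Prime := ⟨hp⟩
  -- the residue field
  have hdom : IsDomain (𝓞 Qbar ⧸ 𝔓) := Ideal.Quotient.isDomain 𝔓
  obtain ⟨f, hf⟩ : ∃ f : 𝓞 Qbar →+* FractionRing (𝓞 Qbar ⧸ 𝔓),
      f = (algebraMap (𝓞 Qbar ⧸ 𝔓) (FractionRing (𝓞 Qbar ⧸ 𝔓))).comp (Ideal.Quotient.mk 𝔓) :=
    ⟨_, rfl⟩
  have hf0 : ∀ x ∈ 𝔓, f x = 0 := by
    intro x hx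
    rw [hf, RingHom.comp_apply, Ideal.Quotient.eq_zero_iff_mem.2 hx, map_zero]
  have hchar : CharP (FractionRing (𝓞 Qbar ⧸ 𝔓)) p := by
    rw [CharP.charP_iff_prime_eq_zero hp]
    have := hf0 _ hp𝔓
    rwa [map_natCast] at this
  let _ : Algebra (ZMod p) (FractionRing (𝓞 Qbar ⧸ 𝔓)) := ZMod.algebra _ p
  obtain ⟨g, hg⟩ : ∃ g : 𝓞 Qbar →+* FractionRing (𝓞 Qbar ⧸ 𝔓),
      ∀ z, g z = f (y • z) := ⟨f.comp (MulSemiringAction.toRingHom GQ (𝓞 Qbar) y), fun z => rfl⟩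
  have hfrob : ∀ z : 𝓞 Qbar, (z : Qbar) ∈ ({i, s2, w, ζ, U, φ} : Set Qb) →
      g z ^ p = g (σ • z) := by
    intro z hz
    have h1 := hf0 _ (hy z hz)
    rw [map_sub, map_pow, sub_eq_zero] at h1
    rw [hg, hg, h1]
  have hcoe : ∀ z t : 𝓞 Qbar, (z : Qbar) = (t : Qbar) → z = t := fun z t h =>
    NumberField.RingOfIntegers.coe_injective h
  obtain ⟨iO, hiO⟩ : ∃ x : 𝓞 Qbar, (x : Qbar) = i := ⟨⟨i, hii⟩, rfl⟩
  obtain ⟨s2O, hs2O⟩ : ∃ x : 𝓞 Qbar, (x : Qbar) = s2 := ⟨⟨s2, h2i⟩, rfl⟩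
  obtain ⟨wO, hwO⟩ : ∃ x : 𝓞 Qbar, (x : Qbar) = w := ⟨⟨w, hwi⟩, rfl⟩
  obtain ⟨zO, hzO⟩ : ∃ x : 𝓞 Qbar, (x : Qbar) = ζ := ⟨⟨ζ, hζi⟩, rfl⟩
  obtain ⟨z'O, hz'O⟩ : ∃ x : 𝓞 Qbar, (x : Qbar) = ζ' := ⟨⟨ζ', hζ'i⟩, rfl⟩
  obtain ⟨UO, hUO⟩ : ∃ x : 𝓞 Qbar, (x : Qbar) = U := ⟨⟨U, hUi⟩, rfl⟩
  obtain ⟨φO, hφO⟩ : ∃ x : 𝓞 Qbar, (x : Qbar) = φ := ⟨⟨φ, hφi⟩, rfl⟩
  have hsm : ∀ z : 𝓞 Qbar, ((σ • z : 𝓞 Qbar) : Qbar) = σ (z : Qbar) := fun z => rfl
  have k1 : σ • iO = iO := hcoe _ _ (by rw [hsm, hiO, e1])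
  have k2 : σ • φO = φO := hcoe _ _ (by rw [hsm, hφO, e2])
  have k3 : σ • s2O = -s2O := hcoe _ _ (by rw [hsm, hs2O, e3]; simp [hs2O])
  have k4 : σ • zO = zO := hcoe _ _ (by rw [hsm, hzO, e4])
  have k5 : σ • wO = wO := hcoe _ _ (by rw [hsm, hwO, e5])
  have k6 : σ • UO = z'O * UO := hcoe _ _ (by rw [hsm, hUO, e6]; simp [hUO, hz'O])
  have m1 : iO ^ 2 = -1 := hcoe _ _ (by simp [hiO, hi])
  have m2 : φO ^ 2 = φO + 1 := hcoe _ _ (by simp [hφO, hφ])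
  have m3 : s2O ^ 2 = 2 := hcoe _ _ (by
    have h1 : ((s2O ^ 2 : 𝓞 Qbar) : Qbar) = 2 := by simp [hs2O, hs2]
    exact h1.trans (map_ofNat (algebraMap (𝓞 Qbar) Qbar) 2).symm)
  have m4 : zO ^ l = 1 := hcoe _ _ (by simp [hzO, hζ])
  have m5 : wO ^ (2 * l) = iO * φO := hcoe _ _ (by simp [hwO, hw, hiO, hφO])
  have m6 : UO ^ l = (b - a * φO) * (b - a * (1 - φO)) ^ (l - 1) :=
    hcoe _ _ (by simp [hUO, hU, hφO])
  have hgeom : ∀ t : 𝓞 Qbar, (t : Qbar) ^ l = 1 → (t : Qbar) ≠ 1 → g t ≠ 1 := by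
    intro t ht ht1 h
    have h1 : (∑ k ∈ Finset.range l, (t : Qbar) ^ k) = 0 := by
      have := geom_sum_mul (t : Qbar) l
      rw [ht, sub_self] at this
      exact (mul_eq_zero.1 this).resolve_right (sub_ne_zero.2 ht1)
    have h2 : (∑ k ∈ Finset.range l, t ^ k) = 0 := hcoe _ _ (by
      change algebraMap (𝓞 Qbar) Qbar _ = algebraMap (𝓞 Qbar) Qbar 0
      rw [map_sum, map_zero]
      simpa using h1)
    have h3 := congrArg g h2
    rw [map_sum, map_zero] at h3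
    simp only [map_pow, h, one_pow, Finset.sum_const, Finset.card_range, nsmul_eq_mul, mul_one]
      at h3
    rw [CharP.cast_eq_zero_iff _ p] at h3
    have := (Nat.prime_dvd_prime_iff_eq hp hl).1 h3
    omega
  refine ⟨p, ⟨hp, by omega, ?_⟩, by omega⟩
  refine zeroPL_modp a b p (by omega) (by omega) (FractionRing (𝓞 Qbar ⧸ 𝔓)) l hl (g iO) (g s2O)
    (g wO) (g zO) (g UO) (g z'O) (g φO) ?_ ?_ ?_ ?_ ?_ ?_ ?_ ?_ ?_ ?_ ?_ ?_ ?_ ?_ ?_
  · rw [← map_pow, m1, map_neg, map_one]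
  · rw [← map_pow, m2, map_add, map_one]
  · rw [← map_pow, m3, map_ofNat]
  · rw [← map_pow, m4, map_one]
  · exact hgeom zO (by rw [hzO, hζ]) (by rw [hzO]; exact hζ1)
  · rw [← map_pow, m5, map_mul]
  · rw [← map_pow, m6]
    simp
  · rw [hfrob iO (by rw [hiO]; simp), k1]
  · rw [hfrob φO (by rw [hφO]; simp), k2]
  · rw [hfrob wO (by rw [hwO]; simp), k5]
  · rw [hfrob zO (by rw [hzO]; simp), k4]
  · rw [hfrob s2O (by rw [hs2O]; simp), k3, map_neg]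
  · rw [hfrob UO (by rw [hUO]; simp), k6, map_mul]
  · exact hgeom z'O (by rw [hz'O, hζ']) (by rw [hz'O]; exact hζ'1)
  · intro h
    rw [CharP.intCast_eq_zero_iff _ p] at h
    have h1 := Int.natAbs_dvd_natAbs.2 h
    rw [Int.natAbs_natCast] at h1
    have h2 := Nat.le_of_dvd (Int.natAbs_pos.2 hD) h1
    omega

/-- Every two-sided sequence without a zero term has infinitely many odd `0`-PL primes. -/
theorem infinite_of_no_zero (a b : ℤ) (G : ℤ → ℤ) (h0 : G 0 = a) (h1 : G 1 = b)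
    (hrec : ∀ n, G (n + 2) = G (n + 1) + G n) (hne : ∀ n, G n ≠ 0) :
    (PLprimes a b 0).Infinite := by
  by_cases hsq : IsSquare |a ^ 2 + a * b - b ^ 2|
  · refine infinite_of_not_dvd a b ?_ (not_dvd_of_no_zero a b G h0 h1 hrec hne hsq)
    intro hD
    have hb : b ≠ 0 := h1 ▸ hne 1
    exact five_not_sq (2 * a + b) b hb (by linear_combination 4 * hD)
  · exact infinite_zeroPL a b hsq

end Pool.Agent.Lib_helper41.ZPL
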